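import Pool.Agent.Helper2.EG.Stmts

set_option autoImplicit false

/-! # The bad numbers have small density (module UD) -/

namespace Pool.Agent.Helper2.EG

open Finset

/-- the eight moduli -/
def ud_S : Finset ℕ := {5 * 97 * 41 * 373, 5 * 97 * 41 * 73, 5 * 97 * 409 * 373, 5 * 97 * 409 * 73,
  5 * 53 * 41 * 373, 5 * 53 * 41 * 73, 5 * 53 * 409 * 373, 5 * 53 * 409 * 73}

/-- the multiples of the eight moduli up to `N` -/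
def ud_M (N : ℕ) : Finset ℕ := ud_S.biUnion fun d => (range (N / d + 1)).image fun k => d * k

theorem ud_pos : ∀ d ∈ ud_S, 0 < d := by decide +kernel

theorem ud_mem {N n d : ℕ} (hn : n ≤ N) (hd : d ∈ ud_S) (h : d ∣ n) : n ∈ ud_M N := by
  obtain ⟨k, rfl⟩ := h
  have hd0 : 0 < d := ud_pos d hd
  refine mem_biUnion.2 ⟨d, hd, mem_image.2 ⟨k, mem_range.2 (Nat.lt_succ_of_le ?_), rfl⟩⟩
  rw [Nat.le_div_iff_mul_le hd0, mul_comm]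
  exact hn

theorem ud_card (N : ℕ) : ((ud_M N).card : ℝ) ≤ 26 / 10 ^ 7 * N + 8 := by
  have h1 : (ud_M N).card ≤ ∑ d ∈ ud_S, (N / d + 1) := by
    refine card_biUnion_le.trans (sum_le_sum fun d _ => ?_)
    exact card_image_le.trans (card_range _).le
  have h2 : ((ud_M N).card : ℝ) ≤ ∑ d ∈ ud_S, ((N : ℝ) / d + 1) := by
    refine (Nat.cast_le.2 h1).trans ?_
    rw [Nat.cast_sum]
    refine sum_le_sum fun d _ => ?_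
    rw [Nat.cast_add, Nat.cast_one]
    exact add_le_add (Nat.cast_div_le) le_rfl
  refine h2.trans ?_
  have h3 : ∑ d ∈ ud_S, ((N : ℝ) / d + 1) = N * ∑ d ∈ ud_S, (1 : ℝ) / d + 8 := by
    rw [sum_add_distrib, mul_sum]
    congr 1
    · refine sum_congr rfl fun d _ => ?_
      rw [mul_one_div]
    · rw [sum_const, nsmul_eq_mul, mul_one]
      have : ud_S.card = 8 := by decide
      rw [this]
      norm_num
  rw [h3]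
  have h4 : ∑ d ∈ ud_S, (1 : ℝ) / d ≤ 26 / 10 ^ 7 := by
    have h5 : ∑ d ∈ ud_S, (1 : ℚ) / d ≤ 26 / 10 ^ 7 := by decide +kernel
    have h6 : (((∑ d ∈ ud_S, (1 : ℚ) / d : ℚ)) : ℝ) ≤ ((26 / 10 ^ 7 : ℚ) : ℝ) := Rat.cast_le.2 h5
    push_cast at h6
    exact h6
  have h7 : (N : ℝ) * ∑ d ∈ ud_S, (1 : ℝ) / d ≤ N * (26 / 10 ^ 7) :=
    mul_le_mul_of_nonneg_left h4 (Nat.cast_nonneg _)
  linarith

theorem ud_dvd {p q r n : ℕ} (hp : p ∈ ({97, 53} : Finset ℕ)) (hq : q ∈ ({41, 409} : Finset ℕ))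
    (hr : r ∈ ({373, 73} : Finset ℕ)) (h5 : 5 ∣ n) (h1 : p ∣ n) (h2 : q ∣ n) (h3 : r ∣ n) :
    5 * p * q * r ∣ n ∧ 5 * p * q * r ∈ ud_S := by
  have key : ∀ p ∈ ({97, 53} : Finset ℕ), ∀ q ∈ ({41, 409} : Finset ℕ), ∀ r ∈ ({373, 73} : Finset ℕ),
      Nat.Coprime 5 p ∧ Nat.Coprime (5 * p) q ∧ Nat.Coprime (5 * p * q) r ∧
        5 * p * q * r ∈ ud_S := by decide +kernel
  obtain ⟨c1, c2, c3, c4⟩ := key p hp q hq r hr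
  exact ⟨c3.mul_dvd_of_dvd_of_dvd (c2.mul_dvd_of_dvd_of_dvd (c1.mul_dvd_of_dvd_of_dvd h5 h1) h2) h3,
    c4⟩

theorem st_UD : ST_UD := by
  intro hDU B h1 h2 h3 h4
  obtain ⟨-, hun, -, -⟩ := hDU
  have hD := hun _ _ (hun _ _ h1 h2) (hun _ _ h3 h4)
  obtain ⟨N1, hN1⟩ := hD (1 / 10 ^ 7) (by norm_num)
  refine ⟨max N1 (3 * 10 ^ 7), fun N hN => ?_⟩
  have hsub : B ∩ Set.Iic N ⊆
      (((B ∩ {n | ¬ 5 ∣ n}) ∪ (B ∩ {n | ¬ 97 ∣ n ∧ ¬ 53 ∣ n})) ∪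
        ((B ∩ {n | ¬ 41 ∣ n ∧ ¬ 409 ∣ n}) ∪ (B ∩ {n | ¬ 373 ∣ n ∧ ¬ 73 ∣ n}))) ∩ Set.Iic N ∪
        (ud_M N : Set ℕ) := by
    rintro n ⟨hnB, hnN⟩
    by_cases c1 : 5 ∣ n
    · by_cases c2 : ¬ 97 ∣ n ∧ ¬ 53 ∣ n
      · exact Or.inl ⟨Or.inl (Or.inr ⟨hnB, c2⟩), hnN⟩
      · by_cases c3 : ¬ 41 ∣ n ∧ ¬ 409 ∣ n
        · exact Or.inl ⟨Or.inr (Or.inl ⟨hnB, c3⟩), hnN⟩
        · by_cases c4 : ¬ 373 ∣ n ∧ ¬ 73 ∣ n
          · exact Or.inl ⟨Or.inr (Or.inr ⟨hnB, c4⟩), hnN⟩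
          · right
            have e2 : ∃ p ∈ ({97, 53} : Finset ℕ), p ∣ n := by
              by_cases h : 97 ∣ n
              · exact ⟨97, by decide, h⟩
              · exact ⟨53, by decide, not_not.1 fun h' => c2 ⟨h, h'⟩⟩
            have e3 : ∃ p ∈ ({41, 409} : Finset ℕ), p ∣ n := by
              by_cases h : 41 ∣ n
              · exact ⟨41, by decide, h⟩
              · exact ⟨409, by decide, not_not.1 fun h' => c3 ⟨h, h'⟩⟩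
            have e4 : ∃ p ∈ ({373, 73} : Finset ℕ), p ∣ n := by
              by_cases h : 373 ∣ n
              · exact ⟨373, by decide, h⟩
              · exact ⟨73, by decide, not_not.1 fun h' => c4 ⟨h, h'⟩⟩
            obtain ⟨p, hp, hpn⟩ := e2
            obtain ⟨q, hq, hqn⟩ := e3
            obtain ⟨r, hr, hrn⟩ := e4
            obtain ⟨k1, k2⟩ := ud_dvd hp hq hr c1 hpn hqn hrn
            exact ud_mem hnN k2 k1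
    · exact Or.inl ⟨Or.inl (Or.inl ⟨hnB, c1⟩), hnN⟩
  have hfin : ((((B ∩ {n | ¬ 5 ∣ n}) ∪ (B ∩ {n | ¬ 97 ∣ n ∧ ¬ 53 ∣ n})) ∪
        ((B ∩ {n | ¬ 41 ∣ n ∧ ¬ 409 ∣ n}) ∪ (B ∩ {n | ¬ 373 ∣ n ∧ ¬ 73 ∣ n}))) ∩ Set.Iic N ∪
        (ud_M N : Set ℕ)).Finite :=
    ((Set.finite_Iic N).subset Set.inter_subset_right).union (ud_M N).finite_toSet
  have hc := Set.ncard_le_ncard hsub hfin
  have hc2 := hc.trans (Set.ncard_union_le _ _)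
  rw [Set.ncard_coe_finset] at hc2
  have hc3 : ((B ∩ Set.Iic N).ncard : ℝ) ≤ ((((((B ∩ {n | ¬ 5 ∣ n}) ∪ (B ∩ {n | ¬ 97 ∣ n ∧ ¬ 53 ∣ n})) ∪
        ((B ∩ {n | ¬ 41 ∣ n ∧ ¬ 409 ∣ n}) ∪ (B ∩ {n | ¬ 373 ∣ n ∧ ¬ 73 ∣ n}))) ∩ Set.Iic N).ncard
          : ℕ) : ℝ) + ((ud_M N).card : ℝ) := by
    exact_mod_cast hc2
  have hc4 := hN1 N ((le_max_left _ _).trans hN)
  have hc5 := ud_card N
  have hN2 : (3 * 10 ^ 7 : ℝ) ≤ N := by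
    have : (3 * 10 ^ 7 : ℕ) ≤ N := (le_max_right _ _).trans hN
    exact_mod_cast this
  have e1 : (3 : ℝ) / 10 ^ 6 * N = 1 / 10 ^ 7 * N + 26 / 10 ^ 7 * N + 3 / 10 ^ 7 * N := by ring
  rw [e1]
  have e2 : (8 : ℝ) ≤ 3 / 10 ^ 7 * N := by
    have : (3 : ℝ) / 10 ^ 7 * (3 * 10 ^ 7) ≤ 3 / 10 ^ 7 * N :=
      mul_le_mul_of_nonneg_left hN2 (by norm_num)
    linarith [this, (by norm_num : (8 : ℝ) ≤ (3 : ℝ) / 10 ^ 7 * (3 * 10 ^ 7))]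
  linarith

end Pool.Agent.Helper2.EG
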